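import Pool.Agent.H71.AL.Targets

set_option autoImplicit false

open Set
open Pool.Agent.AL

namespace Pool.Agent.H34.ALV

theorem dns_symm {ι : Type} {G : ι → ℝ → ℝ} {x y : ℝ} (h : SC G x y) : SC G y x := by
  intro z hz
  rw [uIcc_comm] at hz
  exact h z hz

theorem dns_pair {ι : Type} {G : ι → ℝ → ℝ} {x s t : ℝ} (hs : SC G x s) (ht : SC G x t) :
    SC G s t := by
  intro z hz
  rcases uIcc_subset_uIcc_union_uIcc (a := s) (b := x) (c := t) hz with h | h
  · exact dns_symm hs z h
  · exact ht z h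

theorem dns_btw {ι : Type} {G : ι → ℝ → ℝ} {x s t m : ℝ} (hs : SC G x s) (ht : SC G x t)
    (h1 : s ≤ m) (h2 : m ≤ t) : SC G x m := by
  have hst := dns_pair hs ht
  have hsm : SC G s m := by
    intro z hz
    rw [uIcc_of_le h1] at hz
    exact hst z (by rw [uIcc_of_le (h1.trans h2)]; exact ⟨hz.1, hz.2.trans h2⟩)
  exact dns_pair (dns_symm hs) hsm

theorem dns_key {ι : Type} {G : ι → ℝ → ℝ} (hG : Gp rl G) (hF : T_FRE) {x p q t : ℝ} {i : ι}
    (hp : SC G x p) (hq : SC G x q) (hno : ∀ k, ¬ (p < G k x ∧ G k x < q)) (h1 : p < t)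
    (h2 : t < G i t) (h3 : G i t < q) (hInc : Inc rl (G i)) : False := by
  have hpq : p < q := by linarith
  have hxt : SC G x t := dns_btw hp hq h1.le (by linarith)
  -- all points of the component move up
  have hup : ∀ y, SC G x y → y < G i y := fun y hy =>
    (hF ι G hG t y (dns_pair hxt hy) i).2.1 h2
  have hinc : ∀ a b, a < b → G i a < G i b := fun a b hab => hInc a b hab
  have hincl : ∀ a b, a ≤ b → G i a ≤ G i b := by
    intro a b hab
    rcases hab.eq_or_lt with h | h
    · rw [h]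
    · exact (hinc a b h).le
  obtain ⟨j, hj1, hj2⟩ := hG.inv i
  obtain ⟨i0, hi0⟩ := hG.one
  have hx : ¬ (p < x ∧ x < q) := by
    have := hno i0
    rw [hi0] at this
    exact this
  rcases le_or_gt x p with hxp | hxp
  · -- `x ≤ p`
    set O : Set ℝ := {z | (∃ k, G k x = z) ∧ x ≤ z ∧ z ≤ p} with hO
    have hxO : x ∈ O := ⟨⟨i0, hi0 x⟩, le_rfl, hxp⟩
    have hbd : BddAbove O := ⟨p, fun z hz => hz.2.2⟩
    have hne : O.Nonempty := ⟨x, hxO⟩
    have hz1 : x ≤ sSup O := le_csSup hbd hxO
    have hz2 : sSup O ≤ p := csSup_le hne fun z hz => hz.2.2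
    have hsc : SC G x (sSup O) := by
      intro z hz
      rw [uIcc_of_le hz1] at hz
      exact hp z (by rw [uIcc_of_le hxp]; exact ⟨hz.1, hz.2.trans hz2⟩)
    have hw : G j (sSup O) < sSup O := by
      by_contra hcon
      push Not at hcon
      have h4 := hincl _ _ hcon
      rw [hj2] at h4
      exact absurd (hup _ hsc) (not_lt.mpr h4)
    obtain ⟨o, hoO, ho⟩ := exists_lt_of_lt_csSup hne hw
    have h5 : sSup O < G i o := by
      have := hinc _ _ ho
      rwa [hj2] at this
    have h6 : G i o ≤ G i (sSup O) := hincl _ _ (le_csSup hbd hoO)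
    have h7 : G i (sSup O) < G i t := hinc _ _ (by linarith)
    obtain ⟨k, hk⟩ := hoO.1
    obtain ⟨k', hk'⟩ := hG.mul i k
    have h8 : G k' x = G i o := by rw [hk', hk]
    have h9 := hno k'
    rw [h8] at h9
    have h10 : G i o ≤ p := by
      by_contra hcon
      push Not at hcon
      exact h9 ⟨hcon, by linarith⟩
    have h11 : G i o ∈ O := ⟨⟨k', h8⟩, by linarith, h10⟩
    have h12 := le_csSup hbd h11
    linarith
  · -- `q ≤ x`
    have hqx : q ≤ x := by
      by_contra hcon
      push Not at hcon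
      exact hx ⟨hxp, hcon⟩
    have hjinc : ∀ a b, a < b → G j a < G j b := by
      intro a b hab
      by_contra hcon
      push Not at hcon
      have h4 := hincl _ _ hcon
      rw [hj2, hj2] at h4
      linarith
    have hjincl : ∀ a b, a ≤ b → G j a ≤ G j b := by
      intro a b hab
      rcases hab.eq_or_lt with h | h
      · rw [h]
      · exact (hjinc a b h).le
    set O : Set ℝ := {z | (∃ k, G k x = z) ∧ q ≤ z ∧ z ≤ x} with hO
    have hxO : x ∈ O := ⟨⟨i0, hi0 x⟩, hqx, le_rfl⟩
    have hbd : BddBelow O := ⟨q, fun z hz => hz.2.1⟩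
    have hne : O.Nonempty := ⟨x, hxO⟩
    have hz1 : sInf O ≤ x := csInf_le hbd hxO
    have hz2 : q ≤ sInf O := le_csInf hne fun z hz => hz.2.1
    have hsc : SC G x (sInf O) := by
      intro z hz
      rw [uIcc_of_ge hz1] at hz
      exact hq z (by rw [uIcc_of_ge hqx]; exact ⟨hz2.trans hz.1, hz.2⟩)
    have hw : sInf O < G i (sInf O) := hup _ hsc
    obtain ⟨o, hoO, ho⟩ := exists_lt_of_csInf_lt hne hw
    have h5 : G j o < sInf O := by
      have := hjinc _ _ ho
      rwa [hj1] at this
    have h6 : G j (sInf O) ≤ G j o := hjincl _ _ (csInf_le hbd hoO)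
    have h7 : G j (G i t) < G j (sInf O) := hjinc _ _ (by linarith)
    rw [hj1] at h7
    obtain ⟨k, hk⟩ := hoO.1
    obtain ⟨k', hk'⟩ := hG.mul j k
    have h8 : G k' x = G j o := by rw [hk', hk]
    have h9 := hno k'
    rw [h8] at h9
    have h10 : q ≤ G j o := by
      by_contra hcon
      push Not at hcon
      exact h9 ⟨by linarith, hcon⟩
    have h11 : G j o ∈ O := ⟨⟨k', h8⟩, h10, by linarith⟩
    have h12 := csInf_le hbd h11
    linarith

theorem pf_DNS (hI : T_INV) (hE : T_ESW) (hF : T_FRE) (hC : T_CMP) : T_DNS := by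
  intro ι G hG x p q hpq hp hq hW
  by_contra hcon
  push Not at hcon
  have hno : ∀ k, ¬ (p < G k x ∧ G k x < q) := by
    rintro k ⟨h1, h2⟩
    exact absurd (hcon k h1) (not_le.mpr h2)
  apply hW
  have hgd : Gd rl G p q := by
    refine ⟨hpq, fun i => ?_⟩
    by_cases ht : ∃ t, p < t ∧ t < q ∧ p < G i t ∧ G i t < q
    · right
      obtain ⟨t, h1, h2, h3, h4⟩ := ht
      have hxt : SC G x t := dns_btw hp hq h1.le h2.le
      have hxi : SC G x (G i t) := dns_btw hp hq h3.le h4.le
      rcases lt_trichotomy t (G i t) with h | h | h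
      · exfalso
        have hInc := (hF ι G hG t t (dns_pair hxt hxt) i).2.2.2 (dns_pair hxt hxi)
        exact dns_key hG hF hp hq hno h1 h h4 hInc
      · intro s hs1 hs2
        exact (hF ι G hG t s (dns_pair hxt (dns_btw hp hq (le_of_lt hs1) (le_of_lt hs2))) i).1
          h.symm
      · exfalso
        obtain ⟨j, hj1, hj2⟩ := hG.inv i
        have e : G j (G i t) = t := hj1 t
        have hInc := (hF ι G hG (G i t) t (dns_pair hxi hxt) j).2.2.2
          (by rw [e]; exact dns_pair hxi hxt)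
        refine dns_key (i := j) (t := G i t) hG hF hp hq hno h3 ?_ ?_ hInc
        · rw [e]; exact h
        · rw [e]; exact h2
    · left
      intro s hs1 hs2 hs3
      exact ht ⟨s, hs1, hs2, hs3.1, hs3.2⟩
  have hm : Ws rl G ((p + q) / 2) := ⟨p, q, hgd, by show p < (p + q) / 2; linarith,
    by show (p + q) / 2 < q; linarith⟩
  have hxm : SC G x ((p + q) / 2) := dns_btw hp hq (by linarith) (by linarith)
  exact hC ι G hG _ _ hm (dns_symm hxm)

end Pool.Agent.H34.ALV
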